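import Pool.Agent.N688.FB.Eng
import Pool.Agent.R498.MP.StrC

set_option autoImplicit false

/-!
# Blocks of consecutive primes with almost prime values of a polynomial at prescribed distances
-/

open Filter Finset Polynomial

namespace Pool.Agent.N688.PB

/-- `m` is a prime of the class `c` modulo `q` and `f m` is a product of at most `r` primes, all `≥ w` -/
def GoodPrime (f : ℤ[X]) (q c r : ℕ) (w : ℝ) (m : ℤ) : Prop :=
  m.toNat.Prime ∧ m ≡ c [ZMOD q] ∧ f.eval m ≠ 0 ∧ (f.eval m).natAbs.primeFactorsList.length ≤ r ∧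
    ∀ p : ℕ, p.Prime → (p : ℤ) ∣ f.eval m → w ≤ p

/-- the block with the pattern `y` at the places `n + i e` -/
def Runs (f : ℤ[X]) (q c r : ℕ) (η : ℝ) (l D N : ℕ) {k : ℕ} (y : Fin (k + 1) → ℤ) : Prop :=
  ∃ n e : ℕ, 1 ≤ e ∧ (e : ℝ) ≤ Real.log N ^ D ∧
    ∀ j < l, (N : ℤ) < n + j * e + y 0 ∧ n + j * e + y (Fin.last k) ≤ 2 * N ∧
      (∀ i, GoodPrime f q c r ((N : ℝ) ^ η) (n + j * e + y i)) ∧
      ∀ z : ℤ, n + j * e + y 0 ≤ z → z ≤ n + j * e + y (Fin.last k) → z.toNat.Prime →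
        ∃ i, z = n + j * e + y i

theorem small_nat (S : Finset ℕ) (n : ℕ) (h : n ≤ S.card) : ∃ x : Fin n → ℕ, StrictMono x ∧
    (∀ i, x i ∈ S) ∧ ∀ y ∈ S, (∃ i, y ≤ x i) → ∃ i, y = x i := by
  refine ⟨fun i => S.orderEmbOfFin rfl (Fin.castLE h i), ?_, ?_, ?_⟩
  · intro i j hij
    exact (S.orderEmbOfFin rfl).strictMono ((Fin.castLE_lt_castLE_iff h).2 hij)
  · intro i
    exact S.orderEmbOfFin_mem rfl _
  · rintro y hy ⟨i, hi⟩
    have h1 : y ∈ Set.range (S.orderEmbOfFin rfl) := by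
      rw [Finset.range_orderEmbOfFin]
      exact hy
    obtain ⟨l, rfl⟩ := h1
    have h2 : l ≤ Fin.castLE h i := (S.orderEmbOfFin rfl).le_iff_le.1 hi
    have h3 : l.val < n := by
      have : l.val ≤ i.val := h2
      omega
    exact ⟨⟨l.val, h3⟩, rfl⟩

theorem hit (f : ℤ[X]) (hz : ∀ n : ℤ, n ≠ 0 → f.eval n ≠ 0)
    (hadm : ∀ p : ℕ, p.Prime → ∃ n : ℤ, ¬ (p : ℤ) ∣ n * f.eval n)
    (q c : ℕ) (hq : Squarefree q)
    (hc : ∀ p : ℕ, p.Prime → p ∣ q → ¬ (p : ℤ) ∣ (c : ℤ) * f.eval (c : ℤ)) (k : ℕ) :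
    ∃ (K r : ℕ) (η : ℝ), 0 < η ∧ ∀ H l : ℕ, ∃ D : ℕ, ∀ᶠ N : ℕ in atTop,
      ∀ F : Finset ℤ, F ⊆ Ico 0 (H : ℤ) → F.card = K →
        ∃ x : Fin (k + 2) → ℤ, StrictMono x ∧ (∀ i, x i ∈ F) ∧
          Runs f q c r η l D N (fun i => x i - x 0) := by
  classical
  obtain ⟨K, r, η, hη, hK⟩ := Pool.Agent.R498.MP.stringsCR f hz hadm q c hq hc (k + 2)
  refine ⟨K, r, η, hη, fun H l => ?_⟩
  set SS : Finset (Finset ℕ) := (Finset.range H).powerset.filter (fun S => K ≤ S.card) with hSS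
  have hmem : ∀ S ∈ SS, K ≤ S.card := fun S hS => (mem_filter.1 hS).2
  have hl' : ∀ S : Finset ℕ, K ≤ S.card → ∃ B : ℕ, ∀ᶠ N : ℕ in atTop, ∃ H ⊆ S, k + 2 ≤ H.card ∧
      ∃ n d : ℕ, 1 ≤ d ∧ (d : ℝ) ≤ Real.log N ^ B ∧ ∀ j < l, N < n + j * d ∧
          n + j * d + S.sup id ≤ 2 * N ∧
          (∀ y ≤ S.sup id, (n + j * d + y).Prime ↔ y ∈ H) ∧
          ∀ h ∈ H, n + j * d + h ≡ c [MOD q] ∧
            Pool.Agent.R498.MP.AP r ((N : ℝ) ^ η) (f.eval ((n + j * d + h : ℕ) : ℤ)) :=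
    fun S hS => hK S hS l
  choose! Bf hBf using hl'
  refine ⟨SS.sup Bf, ?_⟩
  have hall : ∀ᶠ N : ℕ in atTop, ∀ S ∈ SS, ∃ H ⊆ S, k + 2 ≤ H.card ∧
      ∃ n d : ℕ, 1 ≤ d ∧ (d : ℝ) ≤ Real.log N ^ (Bf S) ∧ ∀ j < l, N < n + j * d ∧
          n + j * d + S.sup id ≤ 2 * N ∧
          (∀ y ≤ S.sup id, (n + j * d + y).Prime ↔ y ∈ H) ∧
          ∀ h ∈ H, n + j * d + h ≡ c [MOD q] ∧
            Pool.Agent.R498.MP.AP r ((N : ℝ) ^ η) (f.eval ((n + j * d + h : ℕ) : ℤ)) := by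
    rw [Filter.eventually_all_finset]
    exact fun S hS => hBf S (hmem S hS)
  have hlog : ∀ᶠ N : ℕ in atTop, 1 ≤ Real.log N :=
    (Real.tendsto_log_atTop.comp tendsto_natCast_atTop_atTop).eventually_ge_atTop 1
  filter_upwards [hall, hlog, eventually_ge_atTop 1] with N hN hlogN hN1
  intro F hF hFK
  have hF0 : ∀ y ∈ F, 0 ≤ y ∧ y < H := fun y hy => mem_Ico.1 (hF hy)
  -- the set of natural numbers
  set S : Finset ℕ := F.image Int.toNat with hS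
  have hSc : S.card = K := by
    rw [hS, card_image_of_injOn, hFK]
    intro y hy z hz hyz
    have h1 := hF0 y (mem_coe.1 hy)
    have h2 := hF0 z (mem_coe.1 hz)
    have h3 : y.toNat = z.toNat := hyz
    omega
  have hSS' : S ∈ SS := by
    rw [hSS, mem_filter, mem_powerset]
    refine ⟨fun y hy => ?_, hSc.ge⟩
    obtain ⟨z, hz, rfl⟩ := mem_image.1 hy
    have h1 := hF0 z hz
    rw [Finset.mem_range]
    omega
  obtain ⟨H', hH', hH'c, n, d, hd1, hd2, hrun⟩ := hN S hSS'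
  have hSF : ∀ y ∈ S, (y : ℤ) ∈ F := by
    intro y hy
    obtain ⟨z, hz, rfl⟩ := mem_image.1 hy
    have h1 := hF0 z hz
    rwa [Int.toNat_of_nonneg h1.1]
  obtain ⟨x, hx1, hx2, hx3⟩ := small_nat H' (k + 2) hH'c
  refine ⟨fun i => (x i : ℤ), ?_, fun i => hSF _ (hH' (hx2 i)), n + x 0, d, hd1,
    hd2.trans (pow_le_pow_right₀ hlogN (Finset.le_sup hSS')), ?_⟩
  · intro i j hij
    show ((x i : ℕ) : ℤ) < ((x j : ℕ) : ℤ)
    exact_mod_cast hx1 hij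
  · intro j hj
    obtain ⟨g1, g2, g3, g4⟩ := hrun j hj
    have hsup : ∀ y ∈ S, y ≤ S.sup id := fun y hy => Finset.le_sup (f := id) hy
    have e : ∀ i, (((n + x 0 : ℕ) : ℤ) + j * d + ((x i : ℤ) - (x 0 : ℤ))) =
        ((n + j * d + x i : ℕ) : ℤ) := by
      intro i
      push_cast
      ring
    simp only [e]
    refine ⟨by exact_mod_cast lt_of_lt_of_le g1 (Nat.le_add_right _ _), ?_, fun i => ?_, ?_⟩
    · have h1 := hsup _ (hH' (hx2 (Fin.last (k + 1))))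
      have h2 : n + j * d + x (Fin.last (k + 1)) ≤ 2 * N := by omega
      exact_mod_cast h2
    · obtain ⟨g5, g6⟩ := g4 _ (hx2 i)
      obtain ⟨g7, g8, g9⟩ := g6
      refine ⟨?_, ?_, g7, g8, g9⟩
      · rw [Int.toNat_natCast]
        exact (g3 _ (hsup _ (hH' (hx2 i)))).2 (hx2 i)
      · have h1 := (Int.natCast_modEq_iff.2 g5)
        exact_mod_cast h1
    · intro z hz1 hz2 hz3
      obtain ⟨y, hy⟩ : ∃ y : ℕ, z = ((n + j * d + y : ℕ) : ℤ) := by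
        refine ⟨(z - (n + j * d)).toNat, ?_⟩
        have h1 : ((n + j * d + x 0 : ℕ) : ℤ) ≤ z := hz1
        push_cast at h1 ⊢
        rw [Int.toNat_of_nonneg (by
          have : (0 : ℤ) ≤ x 0 := Int.natCast_nonneg _
          linarith)]
        ring
      rw [hy] at hz2 hz3
      rw [Int.toNat_natCast] at hz3
      have h1 : n + j * d + y ≤ n + j * d + x (Fin.last (k + 1)) := by exact_mod_cast hz2
      have h2 : y ≤ x (Fin.last (k + 1)) := by omega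
      have h3 : y ∈ H' := (g3 y (h2.trans (hsup _ (hH' (hx2 _))))).1 hz3
      obtain ⟨i, hi⟩ := hx3 y h3 ⟨_, h2⟩
      exact ⟨i, by rw [hy, hi]⟩

end Pool.Agent.N688.PB
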